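import Pool.Agent.H3.BES.Targets

/-!
# Many quadruples give two disjoint triples with many common neighbours
-/

set_option autoImplicit false

open Finset

namespace Pool.Agent.H14.BES

open Pool.Agent.H3.BES

theorem sum_triple (Q : Finset ℕ) (u v z : ℕ → ℝ) :
    ∑ t ∈ Q ×ˢ (Q ×ˢ Q), u t.1 * v t.2.1 * z t.2.2 =
      (∑ a ∈ Q, u a) * (∑ a ∈ Q, v a) * ∑ a ∈ Q, z a := by
  rw [Finset.sum_product, mul_assoc, Finset.sum_mul]
  apply Finset.sum_congr rfl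
  intro a _
  rw [Finset.sum_product, Finset.sum_mul, Finset.mul_sum]
  apply Finset.sum_congr rfl
  intro b _
  rw [Finset.mul_sum, Finset.mul_sum]
  apply Finset.sum_congr rfl
  intro c _
  ring

/-- the product of the three weights -/
def WT (w : ℕ → ℝ) (t : ℕ × ℕ × ℕ) : ℝ := w t.1 * w t.2.1 * w t.2.2

/-- the weight, if some entry is `x` -/
def ET (w : ℕ → ℝ) (t : ℕ × ℕ × ℕ) (x : ℕ) : ℝ :=
  (if t.1 = x then WT w t else 0) + (if t.2.1 = x then WT w t else 0) +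
    (if t.2.2 = x then WT w t else 0)

section

variable {Q : Finset ℕ} {w : ℕ → ℝ} {A p : ℝ}

theorem WT_nonneg (hw : ∀ q ∈ Q, 0 ≤ w q ∧ w q ≤ p) {t : ℕ × ℕ × ℕ}
    (ht : t ∈ Q ×ˢ (Q ×ˢ Q)) : 0 ≤ WT w t := by
  rw [Finset.mem_product, Finset.mem_product] at ht
  exact mul_nonneg (mul_nonneg (hw _ ht.1).1 (hw _ ht.2.1).1) (hw _ ht.2.2).1

theorem ET_nonneg (hw : ∀ q ∈ Q, 0 ≤ w q ∧ w q ≤ p) {t : ℕ × ℕ × ℕ}
    (ht : t ∈ Q ×ˢ (Q ×ˢ Q)) (x : ℕ) : 0 ≤ ET w t x := by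
  have h := WT_nonneg hw ht
  unfold ET
  refine add_nonneg (add_nonneg ?_ ?_) ?_ <;> split_ifs <;> simp [h]

theorem le_ET (hw : ∀ q ∈ Q, 0 ≤ w q ∧ w q ≤ p) {t : ℕ × ℕ × ℕ}
    (ht : t ∈ Q ×ˢ (Q ×ˢ Q)) {x : ℕ} (hx : t.1 = x ∨ t.2.1 = x ∨ t.2.2 = x) :
    WT w t ≤ ET w t x := by
  have h := WT_nonneg hw ht
  have n1 : 0 ≤ (if t.1 = x then WT w t else 0) := by split_ifs <;> simp [h]
  have n2 : 0 ≤ (if t.2.1 = x then WT w t else 0) := by split_ifs <;> simp [h]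
  have n3 : 0 ≤ (if t.2.2 = x then WT w t else 0) := by split_ifs <;> simp [h]
  unfold ET
  rcases hx with hx | hx | hx
  · rw [if_pos hx]
    linarith
  · rw [if_pos hx]
    linarith
  · rw [if_pos hx]
    linarith

theorem sum_WT (hw : ∀ q ∈ Q, 0 ≤ w q ∧ w q ≤ p) (hA : ∑ q ∈ Q, w q ≤ A) :
    ∑ t ∈ Q ×ˢ (Q ×ˢ Q), WT w t ≤ A ^ 3 := by
  have h0 : 0 ≤ ∑ q ∈ Q, w q := Finset.sum_nonneg fun q hq => (hw q hq).1
  unfold WT
  rw [sum_triple]
  calc (∑ a ∈ Q, w a) * (∑ a ∈ Q, w a) * ∑ a ∈ Q, w a = (∑ a ∈ Q, w a) ^ 3 := by ring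
    _ ≤ A ^ 3 := pow_le_pow_left₀ h0 hA 3

theorem sum_one (hp : 0 ≤ p) (hw : ∀ q ∈ Q, 0 ≤ w q ∧ w q ≤ p) (x : ℕ) :
    0 ≤ ∑ a ∈ Q, (if a = x then w a else 0) ∧ ∑ a ∈ Q, (if a = x then w a else 0) ≤ p := by
  rw [Finset.sum_ite_eq']
  split_ifs with hx
  · exact hw x hx
  · exact ⟨le_rfl, hp⟩

theorem sum_ET (hp : 0 ≤ p) (hw : ∀ q ∈ Q, 0 ≤ w q ∧ w q ≤ p) (hA : ∑ q ∈ Q, w q ≤ A)
    (x : ℕ) : ∑ t ∈ Q ×ˢ (Q ×ˢ Q), ET w t x ≤ 3 * p * A ^ 2 := by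
  have h0 : 0 ≤ ∑ q ∈ Q, w q := Finset.sum_nonneg fun q hq => (hw q hq).1
  obtain ⟨h1, h2⟩ := sum_one hp hw x
  have h3 : (∑ a ∈ Q, w a) ^ 2 ≤ A ^ 2 := pow_le_pow_left₀ h0 hA 2
  have h4 : (∑ a ∈ Q, (if a = x then w a else 0)) * (∑ a ∈ Q, w a) ^ 2 ≤ p * A ^ 2 :=
    mul_le_mul h2 h3 (by positivity) hp
  have e1 : ∑ t ∈ Q ×ˢ (Q ×ˢ Q), (if t.1 = x then WT w t else 0) =
      (∑ a ∈ Q, (if a = x then w a else 0)) * (∑ a ∈ Q, w a) * ∑ a ∈ Q, w a := by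
    rw [← sum_triple]
    apply Finset.sum_congr rfl
    intro t _
    unfold WT
    split_ifs <;> ring
  have e2 : ∑ t ∈ Q ×ˢ (Q ×ˢ Q), (if t.2.1 = x then WT w t else 0) =
      (∑ a ∈ Q, w a) * (∑ a ∈ Q, (if a = x then w a else 0)) * ∑ a ∈ Q, w a := by
    rw [← sum_triple]
    apply Finset.sum_congr rfl
    intro t _
    unfold WT
    split_ifs <;> ring
  have e3 : ∑ t ∈ Q ×ˢ (Q ×ˢ Q), (if t.2.2 = x then WT w t else 0) =
      (∑ a ∈ Q, w a) * (∑ a ∈ Q, w a) * ∑ a ∈ Q, (if a = x then w a else 0) := by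
    rw [← sum_triple]
    apply Finset.sum_congr rfl
    intro t _
    unfold WT
    split_ifs <;> ring
  unfold ET
  rw [Finset.sum_add_distrib, Finset.sum_add_distrib, e1, e2, e3]
  linarith

end

/-- ROW CSB, Cauchy-Schwarz: many quadruples give two disjoint triples with many common
neighbours. -/
theorem clu_CSB : T_CSB := by
  classical
  intro Q w A p k B hA hk hp hw hQ hsm hbig
  by_contra hcon
  set T : Finset (ℕ × ℕ × ℕ) := Q ×ˢ (Q ×ˢ Q) with hT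
  set κ : ℝ := k ^ 2 / (2 * A ^ 7) with hκ
  have hκ0 : 0 ≤ κ := by positivity
  let b : ℕ × ℕ × ℕ → ℕ → Prop := fun t q => B t.1 t.2.1 t.2.2 q
  let mu : ℕ × ℕ × ℕ → ℕ × ℕ × ℕ → ℝ := fun t t' => ∑ q ∈ Q.filter (fun q => b t q ∧ b t' q), w q
  let g : ℕ → ℝ := fun q => ∑ t ∈ T, if b t q then WT w t else 0
  have hmu0 : ∀ t t', 0 ≤ mu t t' := fun t t' =>
    Finset.sum_nonneg fun q hq => (hw q (Finset.mem_filter.1 hq).1).1
  have hmuA : ∀ t t', mu t t' ≤ A := by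
    intro t t'
    refine le_trans ?_ hQ
    exact Finset.sum_le_sum_of_subset_of_nonneg (Finset.filter_subset _ _)
      fun q hq _ => (hw q hq).1
  -- the sum in terms of `g`
  have hS : k < ∑ q ∈ Q, w q * g q := by
    refine lt_of_lt_of_eq hbig ?_
    have e1 : ∑ q1 ∈ Q, ∑ q2 ∈ Q, ∑ q3 ∈ Q, ∑ q ∈ Q,
        (if B q1 q2 q3 q then w q1 * w q2 * w q3 * w q else 0) =
        ∑ t ∈ T, ∑ q ∈ Q, (if b t q then WT w t * w q else 0) := by
      rw [hT, Finset.sum_product]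
      apply Finset.sum_congr rfl
      intro a _
      rw [Finset.sum_product]
      rfl
    rw [e1, Finset.sum_comm]
    apply Finset.sum_congr rfl
    intro q _
    rw [Finset.mul_sum]
    apply Finset.sum_congr rfl
    intro t _
    split_ifs <;> ring
  -- Cauchy-Schwarz
  have hCS : (∑ q ∈ Q, w q * g q) ^ 2 ≤ (∑ q ∈ Q, w q) * ∑ q ∈ Q, w q * g q ^ 2 := by
    apply Finset.sum_sq_le_sum_mul_sum_of_sq_le_mul
    · intro q hq
      exact (hw q hq).1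
    · intro q hq
      exact mul_nonneg (hw q hq).1 (sq_nonneg _)
    · intro q _
      apply le_of_eq
      ring
  have hsq : ∑ q ∈ Q, w q * g q ^ 2 = ∑ t' ∈ T, WT w t' * ∑ t ∈ T, WT w t * mu t t' := by
    have e1 : ∀ q ∈ Q, w q * g q ^ 2 = ∑ t' ∈ T, ∑ t ∈ T,
        WT w t' * (WT w t * (if b t q ∧ b t' q then w q else 0)) := by
      intro q _
      have e2 : w q * g q ^ 2 = ∑ t' ∈ T, ∑ t ∈ T,
          w q * ((if b t' q then WT w t' else 0) * (if b t q then WT w t else 0)) := by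
        rw [sq]
        simp only [g]
        rw [Finset.sum_mul_sum, Finset.mul_sum]
        apply Finset.sum_congr rfl
        intro t' _
        rw [Finset.mul_sum]
      rw [e2]
      apply Finset.sum_congr rfl
      intro t' _
      apply Finset.sum_congr rfl
      intro t _
      by_cases h1 : b t q
      · by_cases h2 : b t' q
        · rw [if_pos h1, if_pos h2, if_pos ⟨h1, h2⟩]
          ring
        · have h3 : ¬ (b t q ∧ b t' q) := fun h => h2 h.2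
          rw [if_neg h2, if_neg h3]
          ring
      · have h3 : ¬ (b t q ∧ b t' q) := fun h => h1 h.1
        rw [if_neg h1, if_neg h3]
        ring
    rw [Finset.sum_congr rfl e1, Finset.sum_comm]
    apply Finset.sum_congr rfl
    intro t' _
    rw [Finset.sum_comm, Finset.mul_sum]
    apply Finset.sum_congr rfl
    intro t _
    rw [← Finset.mul_sum, ← Finset.mul_sum]
    simp only [mu]
    rw [Finset.sum_filter]
  -- the pairs
  have hpair : ∀ t ∈ T, ∀ t' ∈ T, WT w t * mu t t' ≤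
      κ * WT w t + A * (ET w t t'.1 + ET w t t'.2.1 + ET w t t'.2.2) := by
    intro t ht t' ht'
    have hWt := WT_nonneg hw ht
    have n1 := ET_nonneg hw ht t'.1
    have n2 := ET_nonneg hw ht t'.2.1
    have n3 := ET_nonneg hw ht t'.2.2
    by_cases hd : (t.1 ≠ t'.1 ∧ t.1 ≠ t'.2.1 ∧ t.1 ≠ t'.2.2 ∧ t.2.1 ≠ t'.1 ∧ t.2.1 ≠ t'.2.1 ∧
        t.2.1 ≠ t'.2.2 ∧ t.2.2 ≠ t'.1 ∧ t.2.2 ≠ t'.2.1 ∧ t.2.2 ≠ t'.2.2)
    · have h1 : mu t t' ≤ κ := by
        by_contra h2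
        push Not at h2
        have ht1 := ht
        have ht1' := ht'
        rw [hT, Finset.mem_product, Finset.mem_product] at ht1 ht1'
        exact hcon ⟨t.1, ht1.1, t.2.1, ht1.2.1, t.2.2, ht1.2.2, t'.1, ht1'.1, t'.2.1, ht1'.2.1,
          t'.2.2, ht1'.2.2, hd, h2.le⟩
      have h3 : WT w t * mu t t' ≤ WT w t * κ := mul_le_mul_of_nonneg_left h1 hWt
      have h4 : 0 ≤ A * (ET w t t'.1 + ET w t t'.2.1 + ET w t t'.2.2) := by positivity
      linarith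
    · have h1 : WT w t ≤ ET w t t'.1 + ET w t t'.2.1 + ET w t t'.2.2 := by
        by_cases c1 : t.1 = t'.1 ∨ t.2.1 = t'.1 ∨ t.2.2 = t'.1
        · linarith [le_ET hw ht c1]
        · by_cases c2 : t.1 = t'.2.1 ∨ t.2.1 = t'.2.1 ∨ t.2.2 = t'.2.1
          · linarith [le_ET hw ht c2]
          · by_cases c3 : t.1 = t'.2.2 ∨ t.2.1 = t'.2.2 ∨ t.2.2 = t'.2.2
            · linarith [le_ET hw ht c3]
            · exact absurd (by tauto) hd
      have h2 : WT w t * mu t t' ≤ WT w t * A := mul_le_mul_of_nonneg_left (hmuA t t') hWt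
      have h3 : WT w t * A ≤ (ET w t t'.1 + ET w t t'.2.1 + ET w t t'.2.2) * A :=
        mul_le_mul_of_nonneg_right h1 hA.le
      have h4 : 0 ≤ κ * WT w t := mul_nonneg hκ0 hWt
      linarith
  have hinner : ∀ t' ∈ T, ∑ t ∈ T, WT w t * mu t t' ≤ κ * A ^ 3 + 9 * p * A ^ 3 := by
    intro t' ht'
    refine (Finset.sum_le_sum fun t ht => hpair t ht t' ht').trans ?_
    rw [Finset.sum_add_distrib, ← Finset.mul_sum, ← Finset.mul_sum, Finset.sum_add_distrib,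
      Finset.sum_add_distrib]
    have h1 := sum_ET hp hw hQ t'.1
    have h2 := sum_ET hp hw hQ t'.2.1
    have h3 := sum_ET hp hw hQ t'.2.2
    have h4 : κ * ∑ t ∈ T, WT w t ≤ κ * A ^ 3 := mul_le_mul_of_nonneg_left (sum_WT hw hQ) hκ0
    have h5 : A * (∑ t ∈ T, ET w t t'.1 + ∑ t ∈ T, ET w t t'.2.1 + ∑ t ∈ T, ET w t t'.2.2) ≤
        A * (9 * p * A ^ 2) := mul_le_mul_of_nonneg_left (by linarith) hA.le
    have h6 : A * (9 * p * A ^ 2) = 9 * p * A ^ 3 := by ring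
    linarith
  have houter : ∑ q ∈ Q, w q * g q ^ 2 ≤ (κ * A ^ 3 + 9 * p * A ^ 3) * A ^ 3 := by
    rw [hsq]
    calc ∑ t' ∈ T, WT w t' * ∑ t ∈ T, WT w t * mu t t'
        ≤ ∑ t' ∈ T, WT w t' * (κ * A ^ 3 + 9 * p * A ^ 3) :=
          Finset.sum_le_sum fun t' ht' =>
            mul_le_mul_of_nonneg_left (hinner t' ht') (WT_nonneg hw ht')
      _ = (κ * A ^ 3 + 9 * p * A ^ 3) * ∑ t' ∈ T, WT w t' := by
          rw [← Finset.sum_mul, mul_comm]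
      _ ≤ (κ * A ^ 3 + 9 * p * A ^ 3) * A ^ 3 :=
          mul_le_mul_of_nonneg_left (sum_WT hw hQ) (by positivity)
  have hfin : k ^ 2 < A * ((κ * A ^ 3 + 9 * p * A ^ 3) * A ^ 3) := by
    calc k ^ 2 < (∑ q ∈ Q, w q * g q) ^ 2 := pow_lt_pow_left₀ hS hk.le two_ne_zero
      _ ≤ (∑ q ∈ Q, w q) * ∑ q ∈ Q, w q * g q ^ 2 := hCS
      _ ≤ A * ((κ * A ^ 3 + 9 * p * A ^ 3) * A ^ 3) := by
          apply mul_le_mul hQ houter _ hA.le
          exact Finset.sum_nonneg fun q hq => mul_nonneg (hw q hq).1 (sq_nonneg _)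
  have hκA : κ * A ^ 7 = k ^ 2 / 2 := by
    rw [hκ]
    field_simp
  have hr : A * ((κ * A ^ 3 + 9 * p * A ^ 3) * A ^ 3) = κ * A ^ 7 + 9 * (A ^ 7 * p) := by ring
  rw [hr, hκA] at hfin
  linarith

end Pool.Agent.H14.BES
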