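import Pool.Agent.H3.BES.Targets

/-!
# Greedy clusters
-/

set_option autoImplicit false

open Finset

namespace Pool.Agent.H14.BES

open Pool.Agent.H3.BES

/-- ROW GRE, greedy clusters. -/
theorem clu_GRE : T_GRE := by
  classical
  intro c w be k Q hk
  induction Q using Finset.strongInduction with
  | H Q ih =>
    intro hw
    by_cases hx : ∃ x : ℝ, k ≤ ∑ q ∈ Q.filter (fun q => c x q), w q
    · obtain ⟨x, hx⟩ := hx
      have hne : (Q.filter (fun q => c x q)).Nonempty := by
        by_contra h0
        rw [Finset.not_nonempty_iff_eq_empty] at h0
        rw [h0, Finset.sum_empty] at hx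
        linarith
      have hss : Q.filter (fun q => ¬ c x q) ⊂ Q := by
        obtain ⟨y, hy⟩ := hne
        rw [Finset.mem_filter] at hy
        refine ⟨Finset.filter_subset _ _, fun h => ?_⟩
        have := h hy.1
        rw [Finset.mem_filter] at this
        exact this.2 hy.2
      obtain ⟨Qr, V, al, h1, h2, h3, h4, h5⟩ := ih _ hss
        (fun q hq => hw q (Finset.mem_filter.1 hq).1)
      refine ⟨Qr, insert x V, fun q => if q ∈ Q ∧ c x q then x else al q,
        h1.trans (Finset.filter_subset _ _), ?_, ?_, ?_, h5⟩
      · have h6 := Finset.sum_filter_add_sum_filter_not Q (fun q => c x q) w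
        have h7 : ((insert x V).card : ℝ) ≤ V.card + 1 := by
          exact_mod_cast Finset.card_insert_le _ _
        calc ((insert x V).card : ℝ) * k ≤ (V.card + 1) * k :=
              mul_le_mul_of_nonneg_right h7 hk.le
          _ = V.card * k + k := by ring
          _ ≤ _ := by linarith
      · intro q hq hqr
        by_cases hc : c x q
        · simp only [hq, hc, and_self, if_true]
          exact ⟨Finset.mem_insert_self _ _, trivial⟩
        · have h8 := h3 q (Finset.mem_filter.2 ⟨hq, hc⟩) hqr
          simp only [hc, and_false, if_false]
          exact ⟨Finset.mem_insert_of_mem h8.1, h8.2⟩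
      · intro q hq
        have h9 := (Finset.mem_filter.1 (h1 hq)).2
        simp only [h9, and_false, if_false]
        exact h4 q hq
    · push Not at hx
      refine ⟨Q, ∅, be, subset_rfl, ?_, ?_, fun q _ => rfl, hx⟩
      · rw [Finset.card_empty, Nat.cast_zero, zero_mul]
        exact Finset.sum_nonneg hw
      · intro q hq hq'
        exact absurd hq hq'

end Pool.Agent.H14.BES
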